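import Mathlib
import Pool.Agent.U610.PC.Stm
import Pool.Agent.W401.Cheb.Main

/-!
Project PC, package CHEB: a prime at which `P` has a root and `T`, `U` are not squares.
-/

set_option autoImplicit false

namespace Pool.Agent.U416.PC

open Polynomial NumberField Pool.Agent.U610.PC Pool.Agent.W401.Cheb

/-- homogenised value -/
noncomputable def hom {R : Type*} [CommRing R] (T : ℤ[X]) (x y : R) : R :=
  ∑ i ∈ Finset.range (T.natDegree + 1), (T.coeff i : R) * x ^ i * y ^ (T.natDegree - i)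

theorem hom_mul {R : Type*} [CommRing R] (T : ℤ[X]) (m a : R) :
    hom T (m * a) m = m ^ T.natDegree * aeval a T := by
  unfold hom
  rw [Polynomial.aeval_eq_sum_range, Finset.mul_sum]
  refine Finset.sum_congr rfl fun i hi => ?_
  have hi' : i ≤ T.natDegree := by
    rw [Finset.mem_range] at hi
    omega
  rw [mul_pow, zsmul_eq_mul]
  have e : m ^ T.natDegree = m ^ i * m ^ (T.natDegree - i) := by
    rw [← pow_add]
    congr 1
    omega
  rw [e]
  ring

theorem map_hom {R S : Type*} [CommRing R] [CommRing S] (f : R →+* S) (T : ℤ[X]) (x y : R) :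
    f (hom T x y) = hom T (f x) (f y) := by
  unfold hom
  rw [map_sum]
  refine Finset.sum_congr rfl fun i _ => ?_
  rw [map_mul, map_mul, map_pow, map_pow, map_intCast]

theorem frob_fixed {p : ℕ} [Fact p.Prime] (x : AlgebraicClosure (ZMod p)) (hx : x ^ p = x) :
    ∃ b : ZMod p, algebraMap (ZMod p) (AlgebraicClosure (ZMod p)) b = x := by
  have : CharP (AlgebraicClosure (ZMod p)) p :=
    charP_of_injective_algebraMap (algebraMap (ZMod p) (AlgebraicClosure (ZMod p))).injective p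
  have h1 : x ∈ (⊥ : Subfield (AlgebraicClosure (ZMod p))) :=
    (Subfield.mem_bot_iff_pow_eq_self (AlgebraicClosure (ZMod p)) p).2 hx
  obtain ⟨n, hn⟩ := (mem_bot_iff_intCast p (AlgebraicClosure (ZMod p))).1 h1
  refine ⟨(n : ZMod p), ?_⟩
  rw [map_intCast, hn]

theorem aeval_int {K : Type*} [Field K] (T : ℤ[X]) (a : ℤ) :
    aeval (a : K) T = ((T.eval a : ℤ) : K) := by
  have := Polynomial.aeval_algebraMap_apply_eq_algebraMap_eval (R := ℤ) (A := K) a T
  simpa using this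

theorem aeval_q {K : Type*} [Field K] [Algebra ℚ K] (θ : K) (S : ℤ[X]) :
    aeval θ (q S) = aeval θ S := by
  show aeval θ (S.map (Int.castRingHom ℚ)) = _
  rw [← algebraMap_int_eq, Polynomial.aeval_map_algebraMap]

theorem core {p : ℕ} [Fact p.Prime] (hp2 : p ≠ 2) {R : Type*} [CommRing R]
    (φ : R →+* AlgebraicClosure (ZMod p)) (T : ℤ[X]) (x t : R) (m a : ℤ)
    (hm : (m : AlgebraicClosure (ZMod p)) ≠ 0)
    (ht : (m : R) ^ T.natDegree * t ^ 2 = (m : R) ^ 2 * hom T x (m : R))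
    (h0 : φ t ≠ 0) (hs : φ t ^ p = -φ t) (hx : φ x = m * a) :
    ¬ IsSquare ((T.eval a : ℤ) : ZMod p) := by
  rintro ⟨s, hss⟩
  have h1 := congrArg φ ht
  rw [map_mul, map_mul, map_pow, map_pow, map_pow, map_hom, map_intCast, hx, hom_mul, aeval_int] at h1
  have h2 : φ t ^ 2 = (m : AlgebraicClosure (ZMod p)) ^ 2 * ((T.eval a : ℤ) : _) := by
    have h3 : (m : AlgebraicClosure (ZMod p)) ^ T.natDegree ≠ 0 := pow_ne_zero _ hm
    apply mul_left_cancel₀ h3
    rw [h1]
    ring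
  have h4 : ((T.eval a : ℤ) : AlgebraicClosure (ZMod p)) =
      (algebraMap (ZMod p) (AlgebraicClosure (ZMod p)) s) ^ 2 := by
    have h5 := congrArg (algebraMap (ZMod p) (AlgebraicClosure (ZMod p))) hss
    rw [map_intCast, map_mul] at h5
    rw [h5]
    ring
  rw [h4, ← mul_pow] at h2
  have h5 : ((m : AlgebraicClosure (ZMod p)) *
      algebraMap (ZMod p) (AlgebraicClosure (ZMod p)) s) ^ p =
      (m : AlgebraicClosure (ZMod p)) * algebraMap (ZMod p) (AlgebraicClosure (ZMod p)) s := by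
    have h6 : ((m : AlgebraicClosure (ZMod p)) *
        algebraMap (ZMod p) (AlgebraicClosure (ZMod p)) s) =
        algebraMap (ZMod p) (AlgebraicClosure (ZMod p)) ((m : ZMod p) * s) := by
      rw [map_mul, map_intCast]
    rw [h6, ← map_pow, ZMod.pow_card]
  have hodd : Odd p := (Fact.out : p.Prime).odd_of_ne_two hp2
  have h6 : φ t ^ p = φ t := by
    rcases sq_eq_sq_iff_eq_or_eq_neg.1 h2 with h | h
    · rw [h]
      exact h5
    · rw [h, hodd.neg_pow, h5]
  rw [h6] at hs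
  have h7 : (2 : AlgebraicClosure (ZMod p)) * φ t = 0 := by linear_combination hs
  rcases mul_eq_zero.1 h7 with h | h
  · have h8 : ((2 : ℕ) : AlgebraicClosure (ZMod p)) = 0 := by exact_mod_cast h
    have : CharP (AlgebraicClosure (ZMod p)) p :=
      charP_of_injective_algebraMap (algebraMap (ZMod p) (AlgebraicClosure (ZMod p))).injective p
    rw [CharP.cast_eq_zero_iff (AlgebraicClosure (ZMod p)) p] at h8
    exact hp2 ((Nat.prime_dvd_prime_iff_eq Fact.out Nat.prime_two).1 h8)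
  · exact h0 h

/-- the algebraic part: not a square modulo `P` means not in `ℚ(θ)` -/
theorem not_mem {L : Type} [Field L] [Algebra ℚ L] (P T : ℤ[X]) (hP : Irreducible (q P))
    (hT : ¬ SqMod P T) (θ t : L) (hθ : aeval θ (q P) = 0) (ht : t ^ 2 = aeval θ (q T)) :
    t ∉ IntermediateField.adjoin ℚ {θ} := by
  intro hmem
  have hint : IsIntegral ℚ θ := by
    refine (IsAlgebraic.isIntegral ⟨q P, hP.ne_zero, hθ⟩)
  have h1 : t ∈ (IntermediateField.adjoin ℚ {θ}).toSubalgebra := hmem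
  rw [IntermediateField.adjoin_simple_toSubalgebra_of_isAlgebraic hint.isAlgebraic,
    Algebra.adjoin_singleton_eq_range_aeval] at h1
  obtain ⟨h, hh⟩ := h1
  apply hT
  refine ⟨h, ?_⟩
  have h2 : aeval θ (q T - h ^ 2) = 0 := by
    rw [map_sub, map_pow, ← ht]
    have hh' : aeval θ h = t := hh
    rw [hh', sub_self]
  exact (Irreducible.dvd_symm (minpoly.irreducible hint) hP (minpoly.dvd ℚ θ hθ)).trans
    (minpoly.dvd ℚ θ h2)

/-- an element of the group -/
theorem exists_aut {L : Type} [Field L] [NumberField L] [IsGalois ℚ L] (P T U : ℤ[X])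
    (hP : Irreducible (q P)) (hT : ¬ SqMod P T) (hU : ¬ SqMod P U) (θ t u : L)
    (hθ : aeval θ (q P) = 0) (ht : t ^ 2 = aeval θ (q T)) (hu : u ^ 2 = aeval θ (q U)) :
    ∃ σ : Gal(L/ℚ), σ θ = θ ∧ σ t = -t ∧ σ u = -u := by
  have key : ∀ (S : ℤ[X]) (s : L), ¬ SqMod P S → s ^ 2 = aeval θ (q S) →
      (∃ σ : Gal(L/ℚ), σ θ = θ ∧ σ s = -s) ∧ ∀ σ : Gal(L/ℚ), σ θ = θ → σ s = s ∨ σ s = -s := by
    intro S s hS hs
    have hpm : ∀ σ : Gal(L/ℚ), σ θ = θ → σ s = s ∨ σ s = -s := by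
      intro σ hσ
      apply sq_eq_sq_iff_eq_or_eq_neg.1
      rw [← map_pow, hs, ← Polynomial.aeval_algHom_apply, hσ]
    refine ⟨?_, hpm⟩
    have hn := not_mem P S hP hS θ s hθ hs
    by_contra hcon
    push Not at hcon
    apply hn
    rw [← IsGalois.fixedField_fixingSubgroup (IntermediateField.adjoin ℚ {θ})]
    rw [IntermediateField.mem_fixedField_iff]
    intro σ hσ
    have h1 : σ θ = θ := by
      rw [IntermediateField.mem_fixingSubgroup_iff] at hσ
      exact hσ θ (IntermediateField.mem_adjoin_simple_self ℚ θ)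
    rcases hpm σ h1 with h | h
    · exact h
    · exact absurd h (hcon σ h1)
  obtain ⟨⟨σ₁, h1, h2⟩, h3⟩ := key T t hT ht
  obtain ⟨⟨σ₂, h4, h5⟩, h6⟩ := key U u hU hu
  rcases h6 σ₁ h1 with h | h
  · rcases h3 σ₂ h4 with h' | h'
    · refine ⟨σ₁ * σ₂, ?_, ?_, ?_⟩
      · rw [AlgEquiv.mul_apply, h4, h1]
      · rw [AlgEquiv.mul_apply, h', h2]
      · rw [AlgEquiv.mul_apply, h5, map_neg, h]
    · exact ⟨σ₂, h4, h', h5⟩
  · exact ⟨σ₁, h1, h2, h⟩

theorem exists_mult {L : Type} [Field L] [NumberField L] (z : L) :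
    ∃ n : ℤ, n ≠ 0 ∧ IsIntegral ℤ ((n : L) * z) := by
  have h1 : IsAlgebraic ℤ z := (IsFractionRing.isAlgebraic_iff ℤ ℚ L).2 (Algebra.IsAlgebraic.isAlgebraic z)
  obtain ⟨y, hy, hyz⟩ := h1.exists_integral_multiple
  refine ⟨y, hy, ?_⟩
  rw [zsmul_eq_mul] at hyz
  exact hyz

theorem exists_int_dvd {L : Type} [Field L] [NumberField L] (t : 𝓞 L) (ht : t ≠ 0) :
    ∃ n : ℤ, n ≠ 0 ∧ t ∣ (n : 𝓞 L) := by
  have h1 := Ideal.comap_ne_bot_of_integral_mem (R := ℤ) (I := Ideal.span {t}) ht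
    (Ideal.mem_span_singleton_self t) (Algebra.IsIntegral.isIntegral t)
  obtain ⟨n, hn, hn0⟩ := Submodule.exists_mem_ne_zero_of_ne_bot h1
  refine ⟨n, hn0, ?_⟩
  rw [Ideal.mem_comap, Ideal.mem_span_singleton] at hn
  simpa using hn

theorem map_ne {L : Type} [Field L] [NumberField L] {p : ℕ} [Fact p.Prime]
    (φ : 𝓞 L →+* AlgebraicClosure (ZMod p)) (t : 𝓞 L) (n : ℤ) (hn : t ∣ (n : 𝓞 L))
    (hp : ¬ (p : ℤ) ∣ n) : φ t ≠ 0 := by
  intro h
  obtain ⟨r, hr⟩ := hn
  have h1 := congrArg φ hr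
  rw [map_intCast, map_mul, h, zero_mul] at h1
  apply hp
  have h2 : ((n : ZMod p)) = 0 := by
    apply (algebraMap (ZMod p) (AlgebraicClosure (ZMod p))).injective
    rw [map_intCast, map_zero, h1]
  exact (ZMod.intCast_zmod_eq_zero_iff_dvd n p).1 h2

theorem t_CHEB : S_CHEB := by
  intro P T U hP hT hU N
  classical
  -- the elements
  have hdeg : (q P).degree ≠ 0 := by
    have := hP.natDegree_pos
    intro h
    rw [Polynomial.natDegree_eq_of_degree_eq_some (n := 0) (by simpa using h)] at this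
    exact lt_irrefl _ this
  obtain ⟨θA, hθA⟩ := IsAlgClosed.exists_aeval_eq_zero (AlgebraicClosure ℚ) (q P) hdeg
  obtain ⟨tA, htA⟩ := IsAlgClosed.exists_pow_nat_eq (aeval θA (q T)) (n := 2) (by norm_num)
  obtain ⟨uA, huA⟩ := IsAlgClosed.exists_pow_nat_eq (aeval θA (q U)) (n := 2) (by norm_num)
  have halg : Algebra.IsAlgebraic ℚ (AlgebraicClosure ℚ) := by
    have h := AlgebraicClosure.isAlgebraic ℚ
    convert h
    all_goals rfl
  have hclo : IsAlgClosure ℚ (AlgebraicClosure ℚ) := ⟨inferInstance, halg⟩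
  have hnorm : Normal ℚ (AlgebraicClosure ℚ) := IsAlgClosure.normal ℚ (AlgebraicClosure ℚ)
  let K0 : IntermediateField ℚ (AlgebraicClosure ℚ) := IntermediateField.adjoin ℚ {θA, tA, uA}
  have hfin : FiniteDimensional ℚ K0 :=
    IntermediateField.finiteDimensional_adjoin fun x _ => Algebra.IsIntegral.isIntegral x
  let L : IntermediateField ℚ (AlgebraicClosure ℚ) := IntermediateField.normalClosure ℚ K0 (AlgebraicClosure ℚ)
  have hle : K0 ≤ L := IntermediateField.le_normalClosure K0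
  have : FiniteDimensional ℚ L := normalClosure.is_finiteDimensional ℚ K0 (AlgebraicClosure ℚ)
  have : Normal ℚ L := normalClosure.normal ℚ K0 (AlgebraicClosure ℚ)
  have : NumberField L := { to_charZero := inferInstance, to_finiteDimensional := inferInstance }
  have : IsGalois ℚ L := { }
  have hsub : ({θA, tA, uA} : Set (AlgebraicClosure ℚ)) ⊆ K0 := IntermediateField.subset_adjoin ℚ _
  let θ : L := ⟨θA, hle (hsub (by simp))⟩
  let t : L := ⟨tA, hle (hsub (by simp))⟩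
  let u : L := ⟨uA, hle (hsub (by simp))⟩
  have hcoe : ∀ S : ℚ[X], ((aeval θ S : L) : AlgebraicClosure ℚ) = aeval θA S := by
    intro S
    have := Polynomial.aeval_algHom_apply L.val θ S
    exact this.symm
  have hθ : aeval θ (q P) = 0 := Subtype.ext (by rw [hcoe]; exact hθA)
  have ht : t ^ 2 = aeval θ (q T) := Subtype.ext (by rw [hcoe]; exact htA)
  have hu : u ^ 2 = aeval θ (q U) := Subtype.ext (by rw [hcoe]; exact huA)
  obtain ⟨σ, hσθ, hσt, hσu⟩ := exists_aut P T U hP hT hU θ t u hθ ht hu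
  have ht0 : t ≠ 0 := by
    intro h
    have h1 := not_mem P T hP hT θ t hθ ht
    rw [h] at h1
    exact h1 (zero_mem _)
  have hu0 : u ≠ 0 := by
    intro h
    have h1 := not_mem P U hP hU θ u hθ hu
    rw [h] at h1
    exact h1 (zero_mem _)
  obtain ⟨n₁, hn₁, i₁⟩ := exists_mult θ
  obtain ⟨n₂, hn₂, i₂⟩ := exists_mult t
  obtain ⟨n₃, hn₃, i₃⟩ := exists_mult u
  set m : ℤ := n₁ * n₂ * n₃ with hm
  have hm0 : m ≠ 0 := mul_ne_zero (mul_ne_zero hn₁ hn₂) hn₃
  have hmL : (m : L) ≠ 0 := Int.cast_ne_zero.2 hm0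
  have intc : ∀ n : ℤ, IsIntegral ℤ ((n : ℤ) : L) := fun n => by
    have := isIntegral_algebraMap (R := ℤ) (A := L) (x := n)
    simpa using this
  have j₁ : IsIntegral ℤ ((m : L) * θ) := by
    have e : (m : L) * θ = ((n₂ * n₃ : ℤ) : L) * ((n₁ : L) * θ) := by
      rw [hm]; push_cast; ring
    rw [e]
    exact (intc _).mul i₁
  have j₂ : IsIntegral ℤ ((m : L) * t) := by
    have e : (m : L) * t = ((n₁ * n₃ : ℤ) : L) * ((n₂ : L) * t) := by
      rw [hm]; push_cast; ring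
    rw [e]
    exact (intc _).mul i₂
  have j₃ : IsIntegral ℤ ((m : L) * u) := by
    have e : (m : L) * u = ((n₁ * n₂ : ℤ) : L) * ((n₃ : L) * u) := by
      rw [hm]; push_cast; ring
    rw [e]
    exact (intc _).mul i₃
  let θ' : 𝓞 L := ⟨(m : L) * θ, j₁⟩
  let t' : 𝓞 L := ⟨(m : L) * t, j₂⟩
  let u' : 𝓞 L := ⟨(m : L) * u, j₃⟩
  have hcθ : ((θ' : 𝓞 L) : L) = m * θ := rfl
  have hct : ((t' : 𝓞 L) : L) = m * t := rfl
  have hcu : ((u' : 𝓞 L) : L) = m * u := rfl
  have ht'0 : t' ≠ 0 := by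
    intro h
    have h1 := congrArg (fun z : 𝓞 L => (z : L)) h
    simp only [hct] at h1
    exact mul_ne_zero hmL ht0 (by simpa using h1)
  have hu'0 : u' ≠ 0 := by
    intro h
    have h1 := congrArg (fun z : 𝓞 L => (z : L)) h
    simp only [hcu] at h1
    exact mul_ne_zero hmL hu0 (by simpa using h1)
  obtain ⟨a₁, ha₁, hd₁⟩ := exists_int_dvd t' ht'0
  obtain ⟨a₂, ha₂, hd₂⟩ := exists_int_dvd u' hu'0
  -- the relations in the ring of integers
  have relP : hom P θ' (m : 𝓞 L) = 0 := by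
    apply RingOfIntegers.ext
    have h1 : ((hom P θ' (m : 𝓞 L) : 𝓞 L) : L) = hom P ((θ' : 𝓞 L) : L) (m : L) := by
      have := map_hom (algebraMap (𝓞 L) L) P θ' (m : 𝓞 L)
      rw [map_intCast] at this
      exact this
    rw [h1, hcθ, hom_mul, ← aeval_q θ P, hθ, mul_zero]
    simp
  have rel : ∀ (S : ℤ[X]) (s : L) (s' : 𝓞 L), ((s' : 𝓞 L) : L) = m * s → s ^ 2 = aeval θ (q S) →
      (m : 𝓞 L) ^ S.natDegree * s' ^ 2 = (m : 𝓞 L) ^ 2 * hom S θ' (m : 𝓞 L) := by
    intro S s s' hs' hs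
    apply RingOfIntegers.ext
    have h1 : ((hom S θ' (m : 𝓞 L) : 𝓞 L) : L) = hom S ((θ' : 𝓞 L) : L) (m : L) := by
      have := map_hom (algebraMap (𝓞 L) L) S θ' (m : 𝓞 L)
      rw [map_intCast] at this
      exact this
    have h2 : (((m : 𝓞 L) ^ S.natDegree * s' ^ 2 : 𝓞 L) : L) = (m : L) ^ S.natDegree * (m * s) ^ 2 := by
      rw [← hs']
      push_cast
      simp
    have h3 : (((m : 𝓞 L) ^ 2 * hom S θ' (m : 𝓞 L) : 𝓞 L) : L) =
        (m : L) ^ 2 * hom S ((θ' : 𝓞 L) : L) (m : L) := by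
      rw [← h1]
      push_cast
      simp
    rw [h2, h3, hcθ, hom_mul, ← aeval_q θ S, ← hs]
    ring
  -- the prime
  obtain ⟨p, ⟨hpp, hxp⟩, hbig⟩ := (infinite_frob L σ).exists_gt
    (N + 2 + m.natAbs + a₁.natAbs + a₂.natAbs)
  have : Fact p.Prime := ⟨hpp⟩
  have hφ : ∃ φ : 𝓞 L →+* AlgebraicClosure (ZMod p), HasFrob p φ σ := by
    unfold xp at hxp
    rw [dif_pos hpp] at hxp
    obtain ⟨⟨φ, hφ⟩⟩ := (Nat.card_ne_zero.1 hxp).1
    exact ⟨φ, hφ⟩
  obtain ⟨φ, hφ⟩ := hφ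
  have hp2 : p ≠ 2 := by omega
  have nd : ∀ n : ℤ, n ≠ 0 → n.natAbs < p → ¬ (p : ℤ) ∣ n := by
    intro n hn hlt hdvd
    have h1 := Int.natAbs_dvd_natAbs.2 hdvd
    have h2 := Nat.le_of_dvd (Int.natAbs_pos.2 hn) h1
    simp only [Int.natAbs_natCast] at h2
    omega
  have hpm := nd m hm0 (by omega)
  have hpa₁ := nd a₁ ha₁ (by omega)
  have hpa₂ := nd a₂ ha₂ (by omega)
  have hmz : (m : ZMod p) ≠ 0 := fun h => hpm ((ZMod.intCast_zmod_eq_zero_iff_dvd m p).1 h)
  have hmK : (m : AlgebraicClosure (ZMod p)) ≠ 0 := by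
    intro h
    apply hmz
    apply (algebraMap (ZMod p) (AlgebraicClosure (ZMod p))).injective
    rw [map_intCast, map_zero, h]
  have hφt : φ t' ≠ 0 := map_ne φ t' a₁ hd₁ hpa₁
  have hφu : φ u' ≠ 0 := map_ne φ u' a₂ hd₂ hpa₂
  have hsm : ∀ z : 𝓞 L, ((σ • z : 𝓞 L) : L) = σ (z : L) := fun z => rfl
  have sθ : σ • θ' = θ' := RingOfIntegers.ext (by
    rw [hsm, hcθ, map_mul, map_intCast, hσθ])
  have st : σ • t' = -t' := RingOfIntegers.ext (by
    rw [hsm, hct, map_mul, map_intCast, hσt]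
    push_cast
    simp [hct])
  have su : σ • u' = -u' := RingOfIntegers.ext (by
    rw [hsm, hcu, map_mul, map_intCast, hσu]
    push_cast
    simp [hcu])
  have fθ : φ θ' ^ p = φ θ' := by
    have := hφ θ'
    rw [sθ] at this
    exact this.symm
  have ft : φ t' ^ p = -φ t' := by
    have := hφ t'
    rw [st, map_neg] at this
    exact this.symm
  have fu : φ u' ^ p = -φ u' := by
    have := hφ u'
    rw [su, map_neg] at this
    exact this.symm
  obtain ⟨b, hb⟩ := frob_fixed (φ θ') fθ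
  let a : ℤ := ((b * (m : ZMod p)⁻¹).val : ℤ)
  have haz : (a : ZMod p) = b * (m : ZMod p)⁻¹ := by
    show (((b * (m : ZMod p)⁻¹).val : ℤ) : ZMod p) = _
    rw [Int.cast_natCast, ZMod.natCast_zmod_val]
  have hx : φ θ' = m * a := by
    have h1 : ((m : ZMod p)) * a = b := by
      rw [haz]
      field_simp
    rw [← hb, ← h1, map_mul, map_intCast, map_intCast]
  refine ⟨p, ⟨hpp⟩, a, by omega, ?_, ?_, ?_⟩
  · have h1 := congrArg φ relP
    rw [map_hom, map_intCast, hx, hom_mul, map_zero, aeval_int] at h1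
    rcases mul_eq_zero.1 h1 with h | h
    · exact absurd h (pow_ne_zero _ hmK)
    · rw [← ZMod.intCast_zmod_eq_zero_iff_dvd]
      apply (algebraMap (ZMod p) (AlgebraicClosure (ZMod p))).injective
      rw [map_intCast, map_zero, h]
  · exact core hp2 φ T θ' t' m a hmK (rel T t t' hct ht) hφt ft hx
  · exact core hp2 φ U θ' u' m a hmK (rel U u u' hcu hu) hφu fu hx

end Pool.Agent.U416.PC
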